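import Mathlib

/-!
The growth of the powers of a complex matrix (Gelfand's formula), and two small facts on sums.
-/

set_option autoImplicit false

namespace Pool.Agent.H157.Chess

open Filter Topology

/-- The powers of a complex matrix whose eigenvalues have absolute value at most `M`. -/
lemma pow_bound {ι : Type} [Fintype ι] [DecidableEq ι] (B : Matrix ι ι ℂ) {M r : ℝ} (hM : 0 ≤ M)
    (hr : M < r) (h : ∀ a ∈ B.charpoly.roots, ‖a‖ ≤ M) (x : ι → ℂ) :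
    ∀ᶠ n : ℕ in atTop, ‖(B ^ n).mulVec x‖ ≤ r ^ n * ‖x‖ := by
  letI i1 : NormedRing (Matrix ι ι ℂ) := Matrix.linftyOpNormedRing
  letI i2 : NormedAlgebra ℂ (Matrix ι ι ℂ) := Matrix.linftyOpNormedAlgebra
  haveI i3 : CompleteSpace (Matrix ι ι ℂ) := FiniteDimensional.complete ℂ _
  have h1 : spectralRadius ℂ B ≤ ENNReal.ofReal M := by
    refine iSup₂_le fun k hk => ?_
    rw [Matrix.mem_spectrum_iff_isRoot_charpoly] at hk
    have h2 := h k ((Polynomial.mem_roots (B.charpoly_monic.ne_zero)).2 hk)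
    rw [← ENNReal.ofReal_coe_nnreal]
    exact ENNReal.ofReal_le_ofReal h2
  have h3 := spectrum.pow_norm_pow_one_div_tendsto_nhds_spectralRadius B
  have h4 : spectralRadius ℂ B < ENNReal.ofReal r :=
    lt_of_le_of_lt h1 ((ENNReal.ofReal_lt_ofReal_iff (by linarith)).2 hr)
  filter_upwards [h3.eventually (gt_mem_nhds h4), eventually_ge_atTop 1] with n hn hn1
  have h5 := (ENNReal.ofReal_lt_ofReal_iff (by linarith)).1 hn
  have h6 : ‖B ^ n‖ ≤ r ^ n := by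
    have h7 : (‖B ^ n‖ ^ (1 / (n : ℝ))) ^ n = ‖B ^ n‖ := by
      rw [one_div]
      exact Real.rpow_inv_natCast_pow (norm_nonneg _) (by omega)
    rw [← h7]
    exact pow_le_pow_left₀ (Real.rpow_nonneg (norm_nonneg _) _) h5.le n
  refine (Matrix.linfty_opNorm_mulVec (B ^ n) x).trans ?_
  exact mul_le_mul_of_nonneg_right h6 (norm_nonneg _)

/-- A number whose powers with exponents `2^(j+1)` are bounded by `K r^(2^(j+1))`. -/
lemma le_of_pow_two_bound {q r K : ℝ} (hq : 0 ≤ q) (hr : 0 < r)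
    (h : ∀ᶠ j : ℕ in atTop, q ^ 2 ^ (j + 1) ≤ K * r ^ 2 ^ (j + 1)) : q ≤ r := by
  by_contra hlt
  rw [not_le] at hlt
  have h1 : 1 < q / r := by rwa [one_lt_div hr]
  have h2 : Tendsto (fun j : ℕ => 2 ^ (j + 1)) atTop atTop :=
    (tendsto_add_atTop_iff_nat (f := fun j : ℕ => 2 ^ j) 1).2
      (tendsto_pow_atTop_atTop_of_one_lt (by norm_num))
  have h3 := (tendsto_pow_atTop_atTop_of_one_lt h1).comp h2
  obtain ⟨j, hj1, hj2⟩ := ((h3.eventually (eventually_gt_atTop K)).and h).exists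
  simp only [Function.comp] at hj1
  rw [div_pow, lt_div_iff₀ (by positivity)] at hj1
  linarith

/-- Weighted Cauchy-Schwarz. -/
lemma weighted_cs (s : Finset ℕ) {d : ℕ → ℝ} (hd : ∀ i ∈ s, 0 ≤ d i) (a b : ℕ → ℂ) :
    ‖∑ i ∈ s, ((d i : ℝ) : ℂ) * ((starRingEnd ℂ) (a i) * b i)‖ ^ 2 ≤
      (∑ i ∈ s, d i * ‖a i‖ ^ 2) * ∑ i ∈ s, d i * ‖b i‖ ^ 2 := by
  have h1 : ‖∑ i ∈ s, ((d i : ℝ) : ℂ) * ((starRingEnd ℂ) (a i) * b i)‖ ≤
      ∑ i ∈ s, (Real.sqrt (d i) * ‖a i‖) * (Real.sqrt (d i) * ‖b i‖) := by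
    refine (norm_sum_le _ _).trans (le_of_eq (Finset.sum_congr rfl fun i hi => ?_))
    rw [norm_mul, norm_mul, Complex.norm_real, Real.norm_of_nonneg (hd i hi), RCLike.norm_conj]
    have := Real.mul_self_sqrt (hd i hi)
    calc d i * (‖a i‖ * ‖b i‖) = (Real.sqrt (d i) * Real.sqrt (d i)) * (‖a i‖ * ‖b i‖) := by
          rw [this]
      _ = _ := by ring
  have h2 := Finset.sum_mul_sq_le_sq_mul_sq s (fun i => Real.sqrt (d i) * ‖a i‖)
    (fun i => Real.sqrt (d i) * ‖b i‖)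
  have h3 : ∀ c : ℕ → ℂ, ∑ i ∈ s, (Real.sqrt (d i) * ‖c i‖) ^ 2 = ∑ i ∈ s, d i * ‖c i‖ ^ 2 :=
    fun c => Finset.sum_congr rfl fun i hi => by rw [mul_pow, Real.sq_sqrt (hd i hi)]
  rw [h3, h3] at h2
  exact (pow_le_pow_left₀ (norm_nonneg _) h1 2).trans h2

end Pool.Agent.H157.Chess
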