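import Pool.Agent.W715.VC.Growth
import Pool.Agent.H157.Chess.Pow

/-!
The chessboard estimate: the operator of a braid `u` on three strands has a norm at most
`(|tr (u ū)| + N^3)^(1/2)` for the semidefinite form.
-/

set_option autoImplicit false

namespace Pool.Agent.H157.Chess

open Matrix Finset Filter Topology Pool.Agent.W715.VC Pool.Agent.H550R3.Jones
open scoped Kronecker

variable {N : ℕ}

/-- An eigenvalue of a braid belongs to a highest weight vector of a weight `m < N` that is not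
orthogonal to the highest weight vectors of this weight. -/
lemma eig_top (hN : 0 < N) (w : List (ℕ × Bool)) {lam : ℂ} {m0 : ℕ}
    (h0 : Eig (rep3 N w) lam m0) : ∃ m, m < N ∧ ∃ x : I3 N → ℂ, x ≠ 0 ∧ InK m x ∧
      rep3 N w *ᵥ x = lam • x ∧ ∃ y, InK m y ∧ Hf y x ≠ 0 := by
  classical
  set B := rep3 N w with hB
  have hG : Good B := good_rep3 _
  have hex : ∃ m, Eig B lam m := ⟨m0, h0⟩
  obtain ⟨x, hx0, hxW, hx⟩ := Nat.find_spec hex
  have hmin : ∀ k, k < Nat.find hex → ¬ Eig B lam k := fun k hk => Nat.find_min hex hk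
  set m := Nat.find hex with hm
  have hxE : Et N *ᵥ x = 0 := by
    by_contra hE
    have h1 : B *ᵥ (Et N *ᵥ x) = lam • (Et N *ᵥ x) := by
      rw [Matrix.mulVec_mulVec, hG.e, ← Matrix.mulVec_mulVec, hx, Matrix.mulVec_smul]
    cases hmm : m with
    | zero =>
      apply hE
      rw [← wp_of_InW hxW, hmm, lower_zero (Et_wt hN)]
    | succ k =>
      refine hmin k (by omega) ⟨_, hE, ?_, h1⟩
      have h2 := wp_lower (Et_wt hN) k x
      rw [← hmm, wp_of_InW hxW] at h2
      rw [← h2]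
      exact wp_InW _ _
  have hK : InK m x := ⟨hxW, hxE⟩
  have hmN : m < N := by
    by_contra hge
    obtain ⟨y, hyW, hy⟩ := ker_Et hN hK
    have hcomm : B * Et N ^ (N - 1) = Et N ^ (N - 1) * B :=
      (Commute.pow_right (show Commute B (Et N) from hG.e) (N - 1))
    have h1 := eig_symm hN _ (eig_push hG hcomm hx0 hx hyW hy)
    exact hmin _ (by omega) h1
  refine ⟨m, hmN, x, hx0, hK, hx, ?_⟩
  by_contra hno
  push Not at hno
  obtain ⟨z, hz⟩ := range_Ft hN hxW hno
  cases hmm : m with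
  | zero =>
    apply hx0
    rw [← wp_of_InW hxW, hmm, ← hz, wp_raise_zero (Ft_wt hN)]
  | succ k =>
    have h1 : Ft N *ᵥ wp k z = x := by
      rw [← wp_raise (Ft_wt hN), hz, ← hmm, wp_of_InW hxW]
    exact hmin k (by omega) (eig_push hG hG.f hx0 hx (wp_InW k z) h1)

/-- In the unitary range the eigenvalues have absolute value one. -/
lemma eig_unit (w : List (ℕ × Bool)) {lam : ℂ} {m : ℕ} (h2 : 2 * m + 2 ≤ N) {x : I3 N → ℂ}
    (hx0 : x ≠ 0) (hK : InK m x) (hx : rep3 N w *ᵥ x = lam • x) : ‖lam‖ = 1 := by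
  have h3 := QK_rep3 h2 w hK
  rw [hx, QK_smul] at h3
  have h4 := QK_pos h2 hK hx0
  have h5 : ‖lam‖ ^ 2 = 1 := by
    have h6 : (‖lam‖ ^ 2 - 1) * QK N m x = 0 := by linear_combination h3
    have := (mul_eq_zero.1 h6).resolve_right h4.ne'
    linarith
  exact (pow_eq_one_iff_of_nonneg (norm_nonneg _) two_ne_zero).1 h5

/-- The semidefinite form. -/
noncomputable def Sq (N m : ℕ) (x : I3 N → ℂ) : ℝ :=
  ∑ i ∈ range (m + 1), DD N m i * ‖LL N m i x‖ ^ 2

/-- Its polarisation. -/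
noncomputable def Sf (N m : ℕ) (x y : I3 N → ℂ) : ℂ :=
  ∑ i ∈ range (m + 1), ((DD N m i : ℝ) : ℂ) * ((starRingEnd ℂ) (LL N m i x) * LL N m i y)

lemma Sf_self (m : ℕ) (x : I3 N → ℂ) : Sf N m x x = ((Sq N m x : ℝ) : ℂ) := by
  unfold Sf Sq
  push_cast
  refine sum_congr rfl fun i _ => ?_
  rw [Complex.conj_mul']

lemma Sq_nonneg {m : ℕ} (hmN : m < N) (x : I3 N → ℂ) : 0 ≤ Sq N m x :=
  sum_nonneg fun i hi => by
    rw [mem_range] at hi
    exact mul_nonneg (DD_nonneg hmN (by omega)) (by positivity)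

lemma Sf_cs {m : ℕ} (hmN : m < N) (x y : I3 N → ℂ) :
    ‖Sf N m x y‖ ^ 2 ≤ Sq N m x * Sq N m y :=
  weighted_cs (range (m + 1)) (fun i hi => by
    rw [mem_range] at hi
    exact DD_nonneg hmN (by omega)) _ _

lemma Hf_bound (x : I3 N → ℂ) : ‖Hf x x‖ ≤ Fintype.card (I3 N) * ‖x‖ ^ 2 := by
  unfold Hf
  refine (_root_.norm_sum_le _ _).trans ?_
  have h1 : ∀ p ∈ (Finset.univ : Finset (I3 N)), ‖(starRingEnd ℂ) (x p) * x (rv p)‖ ≤ ‖x‖ ^ 2 := by
    intro p _
    rw [norm_mul, RCLike.norm_conj, sq]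
    exact mul_le_mul (norm_le_pi_norm x p) (norm_le_pi_norm x _) (norm_nonneg _) (norm_nonneg _)
  refine (sum_le_sum h1).trans ?_
  rw [sum_const, card_univ, nsmul_eq_mul]

lemma dl_dl {l : ℕ × Bool} (hl : l.1 < 2) : dl (dl l) = l := by
  obtain ⟨k, b⟩ := l
  have hk : k = 0 ∨ k = 1 := by simp only at hl; omega
  rcases hk with rfl | rfl <;> simp [dl]

lemma dual_dual {u : List (ℕ × Bool)} (hu : ∀ l ∈ u, l.1 < 2) : dual (dual u) = u := by
  unfold dual
  rw [List.map_reverse, List.reverse_reverse, List.map_map]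
  calc u.map (dl ∘ dl) = u.map id := List.map_congr_left fun l hl => dl_dl (hu l hl)
    _ = u := List.map_id u

lemma dual_lt (u : List (ℕ × Bool)) : ∀ l ∈ dual u, l.1 < 2 := by
  intro l hl
  unfold dual at hl
  rw [List.mem_reverse, List.mem_map] at hl
  obtain ⟨l', _, rfl⟩ := hl
  unfold dl
  simp only
  omega

/-- The upper bound of all eigenvalues in terms of the trace. -/
lemma root_le {s : Multiset ℂ} (hs : ∀ a ∈ s, (∃ r : ℝ, 0 < r ∧ a = r) ∨ ‖a‖ = 1)
    (hs0 : 1 ≤ s.card) : ∀ a ∈ s, ‖a‖ ≤ ‖s.sum‖ + s.card := by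
  obtain ⟨M, hM1, hM2, hM3⟩ := exists_radius s hs
  have hc : (1 : ℝ) ≤ s.card := by exact_mod_cast hs0
  have key : M ≤ ‖s.sum‖ + s.card := by
    rcases hM3 with h | h
    · rw [h]
      have := norm_nonneg s.sum
      linarith
    · obtain ⟨t, rfl⟩ := Multiset.exists_cons_of_mem h
      have h1 := re_sum_ge t (fun a ha => hs a (Multiset.mem_cons_of_mem ha)) 1
      have h2 := Complex.re_le_norm (((M : ℂ) ::ₘ t).sum)
      simp only [pow_one] at h1
      rw [Multiset.map_id'] at h1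
      rw [Multiset.sum_cons, Complex.add_re, Complex.ofReal_re] at h2
      rw [Multiset.sum_cons, Multiset.card_cons]
      push_cast
      linarith
  exact fun a ha => (hM2 a ha).trans key

/-- The constant of a word. -/
noncomputable def Mc (N : ℕ) (u : List (ℕ × Bool)) : ℝ :=
  ‖(rep3 N (u ++ dual u)).trace‖ + (N : ℝ) ^ 3

lemma one_le_Mc (hN : 0 < N) (u : List (ℕ × Bool)) : 1 ≤ Mc N u := by
  unfold Mc
  have h1 : (1 : ℝ) ≤ (N : ℝ) ^ 3 := one_le_pow₀ (by exact_mod_cast hN)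
  have h2 := norm_nonneg (rep3 N (u ++ dual u)).trace
  linarith

lemma roots_Mc (hN : 0 < N) {u : List (ℕ × Bool)} (hu : ∀ l ∈ u, l.1 < 2) :
    ∀ a ∈ (rep3 N (dual u ++ u)).charpoly.roots, ‖a‖ ≤ Mc N u := by
  set B := rep3 N (dual u ++ u) with hB
  have hcard : B.charpoly.roots.card = N ^ 3 := by
    rw [card_roots' B]
    simp only [I3, Fintype.card_prod, Fintype.card_fin]
    ring
  have h1 : ∀ a ∈ B.charpoly.roots, (∃ r : ℝ, 0 < r ∧ a = r) ∨ ‖a‖ = 1 := by
    intro a ha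
    obtain ⟨m, hm⟩ := eig_of_root (good_rep3 _) ha
    have h2 : Eig (rep3 N (dual u ++ dual (dual u))) a m := by rw [dual_dual hu]; exact hm
    exact eig_main hN (dual_lt u) h2
  have h3 := root_le h1 (by rw [hcard]; exact Nat.one_le_pow _ _ hN)
  rw [hcard, ← Matrix.trace_eq_sum_roots_charpoly B] at h3
  have h4 : B.trace = (rep3 N (u ++ dual u)).trace := by
    rw [hB, rep3_append, rep3_append, Matrix.trace_mul_comm]
  unfold Mc
  rw [← h4]
  push_cast at h3
  exact h3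

lemma hadj_dual (hN : 0 < N) {u : List (ℕ × Bool)} (hu : ∀ l ∈ u, l.1 < 2) :
    hadj (rep3 N (dual u)) = rep3 N u := by
  rw [← hadj_rep3 hN hu]
  ext p q
  simp only [hadj, Complex.conj_conj, rv_rv]

/-- **The norm of a braid for the semidefinite form.** -/
lemma Sq_le (hN : 0 < N) {u : List (ℕ × Bool)} (hu : ∀ l ∈ u, l.1 < 2) {m : ℕ} (hmN : m < N)
    {c : ℝ} (hc0 : c ≠ 0)
    (hc : ∀ x y : I3 N → ℂ, InK m x → InK m y → Hf x y = c * Sf N m x y)
    {x : I3 N → ℂ} (hK : InK m x) : Sq N m (rep3 N u *ᵥ x) ≤ Mc N u * Sq N m x := by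
  have hM1 := one_le_Mc hN u
  have hcC : (c : ℂ) ≠ 0 := by exact_mod_cast hc0
  -- adjointness
  have hadj' : ∀ A : M3 N, Good A → Good (hadj A) → ∀ y z : I3 N → ℂ, InK m y → InK m z →
      Sf N m (A *ᵥ y) z = Sf N m y (hadj A *ᵥ z) := by
    intro A hA hA' y z hy hz
    have h1 := Hf_adj A y z
    rw [hc _ _ (hA.InK hy) hz, hc _ _ hy (hA'.InK hz)] at h1
    exact mul_left_cancel₀ hcC h1
  set T := rep3 N u with hT
  have hTG : Good T := good_rep3 _
  have hTa : hadj T = rep3 N (dual u) := hadj_rep3 hN hu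
  have hTaG : Good (hadj T) := by rw [hTa]; exact good_rep3 _
  set B := rep3 N (dual u ++ u) with hB
  have hBG : ∀ n : ℕ, Good (B ^ n) := by
    intro n
    rw [hB, ← rep3_wpow]
    exact good_rep3 _
  have hBT : B = hadj T * T := by rw [hTa, hB, rep3_append]
  have hBa : hadj B = B := by
    rw [hBT, hadj_mul]
    congr 1
    rw [hTa, hadj_dual hN hu]
  have hBna : ∀ n : ℕ, hadj (B ^ n) = B ^ n := by
    intro n
    induction n with
    | zero => rw [pow_zero, hadj_one]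
    | succ n ih => rw [pow_succ, hadj_mul, ih, hBa, ← pow_succ', pow_succ]
  -- the squares
  have hS0 := fun y : I3 N → ℂ => Sq_nonneg (N := N) hmN y
  have e1 : Sq N m (T *ᵥ x) ^ 2 ≤ Sq N m x * Sq N m (B *ᵥ x) := by
    have h1 : Sf N m (T *ᵥ x) (T *ᵥ x) = Sf N m x (B *ᵥ x) := by
      rw [hadj' T hTG hTaG x _ hK (hTG.InK hK), Matrix.mulVec_mulVec, ← hBT]
    have h2 := Sf_cs hmN x (B *ᵥ x)
    rwa [← h1, Sf_self, Complex.norm_real, Real.norm_of_nonneg (hS0 _)] at h2
  have e2 : ∀ n : ℕ, Sq N m (B ^ n *ᵥ x) ^ 2 ≤ Sq N m x * Sq N m (B ^ (2 * n) *ᵥ x) := by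
    intro n
    have h1 : Sf N m (B ^ n *ᵥ x) (B ^ n *ᵥ x) = Sf N m x (B ^ (2 * n) *ᵥ x) := by
      rw [hadj' (B ^ n) (hBG n) (by rw [hBna]; exact hBG n) x _ hK ((hBG n).InK hK),
        Matrix.mulVec_mulVec, hBna, ← pow_add, two_mul]
    have h2 := Sf_cs hmN x (B ^ (2 * n) *ᵥ x)
    rwa [← h1, Sf_self, Complex.norm_real, Real.norm_of_nonneg (hS0 _)] at h2
  rcases (hS0 x).lt_or_eq with hSx | hSx
  swap
  · have h1 : Sq N m (T *ᵥ x) ^ 2 ≤ 0 := by rw [← hSx, zero_mul] at e1; exact e1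
    have h2 : Sq N m (T *ᵥ x) = 0 := by
      have := sq_nonneg (Sq N m (T *ᵥ x))
      exact pow_eq_zero_iff (two_ne_zero) |>.1 (le_antisymm h1 this)
    rw [h2, ← hSx, mul_zero]
  -- the iteration
  set q := Sq N m (T *ᵥ x) / Sq N m x with hq
  have hq0 : 0 ≤ q := div_nonneg (hS0 _) hSx.le
  have e3 : ∀ j : ℕ, q ^ 2 ^ (j + 1) ≤ Sq N m (B ^ 2 ^ j *ᵥ x) / Sq N m x := by
    intro j
    induction j with
    | zero =>
      rw [zero_add, pow_one, pow_zero, pow_one, hq, div_pow, div_le_div_iff₀ (by positivity) hSx]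
      nlinarith
    | succ j ih =>
      have h1 : q ^ 2 ^ (j + 1 + 1) = (q ^ 2 ^ (j + 1)) ^ 2 := by rw [← pow_mul, ← pow_succ]
      rw [h1]
      refine (pow_le_pow_left₀ (pow_nonneg hq0 _) ih 2).trans ?_
      have h2 := e2 (2 ^ j)
      rw [← pow_succ'] at h2
      rw [div_pow, div_le_div_iff₀ (by positivity) hSx]
      nlinarith
  have e4 : ∀ y, InK m y → Sq N m y ≤ Fintype.card (I3 N) / |c| * ‖y‖ ^ 2 := by
    intro y hy
    have h1 := hc y y hy hy
    rw [Sf_self] at h1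
    have h2 := Hf_bound y
    rw [h1, norm_mul, Complex.norm_real, Complex.norm_real, Real.norm_of_nonneg (hS0 y),
      Real.norm_eq_abs] at h2
    have h3 : 0 < |c| := abs_pos.2 hc0
    rw [div_mul_eq_mul_div, le_div_iff₀ h3]
    linarith
  have e5 : ∀ r : ℝ, Mc N u < r → q ≤ r := by
    intro r hr
    have hr0 : 0 < r := by linarith
    refine le_of_pow_two_bound (K := Fintype.card (I3 N) / |c| * ‖x‖ ^ 2 / Sq N m x) hq0 hr0 ?_
    have h1 := pow_bound B (by linarith) hr (roots_Mc hN hu) x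
    have h2 : Tendsto (fun j : ℕ => 2 ^ j) atTop atTop :=
      tendsto_pow_atTop_atTop_of_one_lt (by norm_num : 1 < 2)
    filter_upwards [h2.eventually h1] with j hj
    refine (e3 j).trans ?_
    rw [div_mul_eq_mul_div]
    refine div_le_div_of_nonneg_right ?_ hSx.le
    refine (e4 _ ((hBG _).InK hK)).trans ?_
    rw [mul_assoc]
    refine mul_le_mul_of_nonneg_left ?_ (by positivity)
    calc ‖B ^ 2 ^ j *ᵥ x‖ ^ 2 ≤ (r ^ 2 ^ j * ‖x‖) ^ 2 :=
          pow_le_pow_left₀ (norm_nonneg _) hj 2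
      _ = ‖x‖ ^ 2 * r ^ 2 ^ (j + 1) := by rw [mul_pow, ← pow_mul, ← pow_succ]; ring
  have e6 : q ≤ Mc N u := le_of_forall_gt_imp_ge_of_dense fun r hr => e5 r hr
  rw [hq, div_le_iff₀ hSx] at e6
  exact e6

lemma prod_Mc_ge_one (hN : 0 < N) (ws : List (List (ℕ × Bool))) : 1 ≤ (ws.map (Mc N)).prod := by
  induction ws with
  | nil => simp
  | cons u ws ih =>
    rw [List.map_cons, List.prod_cons]
    have := one_le_Mc hN u
    nlinarith

/-- The eigenvalues of a product of words. -/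
lemma eig_le (hN : 0 < N) {ws : List (List (ℕ × Bool))} (hws : ∀ u ∈ ws, ∀ l ∈ u, l.1 < 2)
    {lam : ℂ} {m0 : ℕ} (h0 : Eig (rep3 N ws.flatten) lam m0) :
    ‖lam‖ ^ 2 ≤ (ws.map (Mc N)).prod := by
  obtain ⟨m, hmN, x, hx0, hK, hx, y, hyK, hyx⟩ := eig_top hN _ h0
  rcases Nat.lt_or_ge (2 * m + 1) N with h2 | h2
  · rw [eig_unit _ (by omega) hx0 hK hx, one_pow]
    exact prod_Mc_ge_one hN ws
  · obtain ⟨c, hc⟩ := semi hmN (by omega : N ≤ 2 * m + 1)
    have hc' : ∀ x y : I3 N → ℂ, InK m x → InK m y → Hf x y = c * Sf N m x y := hc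
    have hc0 : c ≠ 0 := by
      intro h
      apply hyx
      rw [hc y x hyK hK, h]
      simp
    have hSx : 0 < Sq N m x := by
      rcases (Sq_nonneg hmN x).lt_or_eq with h | h
      · exact h
      · exfalso
        apply hyx
        have h3 := Sf_cs hmN y x
        rw [← h, mul_zero] at h3
        have h4 : Sf N m y x = 0 := by
          rw [← norm_eq_zero]
          exact pow_eq_zero_iff two_ne_zero |>.1 (le_antisymm h3 (sq_nonneg _))
        rw [hc' y x hyK hK, h4, mul_zero]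
    have key : ∀ vs : List (List (ℕ × Bool)), (∀ u ∈ vs, ∀ l ∈ u, l.1 < 2) →
        Sq N m (rep3 N vs.flatten *ᵥ x) ≤ (vs.map (Mc N)).prod * Sq N m x := by
      intro vs
      induction vs with
      | nil =>
        intro _
        rw [List.flatten_nil, rep3_nil, one_mulVec, List.map_nil, List.prod_nil, one_mul]
      | cons u vs ih =>
        intro hvs
        rw [List.flatten_cons, rep3_append, ← Matrix.mulVec_mulVec, List.map_cons, List.prod_cons,
          mul_assoc]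
        refine (Sq_le hN (hvs u List.mem_cons_self) hmN hc0 hc' ((good_rep3 _).InK hK)).trans ?_
        have hM1 := one_le_Mc hN u
        exact mul_le_mul_of_nonneg_left (ih fun v hv => hvs v (List.mem_cons_of_mem _ hv))
          (by linarith)
    have h3 := key ws hws
    rw [hx] at h3
    have h4 : Sq N m (lam • x) = ‖lam‖ ^ 2 * Sq N m x := by
      have h5 : ((Sq N m (lam • x) : ℝ) : ℂ) = ((‖lam‖ ^ 2 * Sq N m x : ℝ) : ℂ) := by
        have hcC : (c : ℂ) ≠ 0 := by exact_mod_cast hc0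
        apply mul_left_cancel₀ hcC
        rw [← Sf_self, ← hc' _ _ (InK_smul hK lam) (InK_smul hK lam), Hf_smul_left, Hf_smul_right,
          hc' _ _ hK hK, Sf_self]
        push_cast
        rw [← Complex.conj_mul' lam]
        ring
      exact_mod_cast h5
    rw [h4] at h3
    exact le_of_mul_le_mul_right h3 hSx

/-- **The chessboard estimate for the traces.** -/
theorem trace_le (hN : 0 < N) {ws : List (List (ℕ × Bool))} (hws : ∀ u ∈ ws, ∀ l ∈ u, l.1 < 2) :
    ‖(rep3 N ws.flatten).trace‖ ≤ (N : ℝ) ^ 3 * Real.sqrt ((ws.map (Mc N)).prod) := by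
  set B := rep3 N ws.flatten with hB
  rw [Matrix.trace_eq_sum_roots_charpoly B]
  have hcard : B.charpoly.roots.card = N ^ 3 := by
    rw [card_roots' B]
    simp only [I3, Fintype.card_prod, Fintype.card_fin]
    ring
  have h1 : ∀ a ∈ B.charpoly.roots, ‖a‖ ≤ Real.sqrt ((ws.map (Mc N)).prod) := by
    intro a ha
    obtain ⟨m, hm⟩ := eig_of_root (good_rep3 _) ha
    exact Real.le_sqrt_of_sq_le (eig_le hN hws hm)
  have h2 := norm_sum_le B.charpoly.roots h1 1
  simp only [pow_one] at h2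
  rw [Multiset.map_id', hcard] at h2
  push_cast at h2
  exact h2

end Pool.Agent.H157.Chess
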