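import Pool.Agent.H157.Chess.Core
import Pool.Agent.W715.VC.Base
import Pool.Agent.W715.VC.Limit
import Pool.Agent.H112R4.VL.B
import Pool.Agent.H112R4.VL.D
import Pool.Agent.H8R3.VL.TaskC
import Pool.Agent.H180R3.EV.Quant

/-!
The traces of the words `l l̄` for one letter `l`, and a limit lemma.
-/

set_option autoImplicit false

namespace Pool.Agent.H157.Chess

open Matrix Finset Filter Topology Pool.Agent.W715.VC Pool.Agent.H550R3.Jones
open scoped Kronecker

variable {N : ℕ}

lemma trace_conj {A A' : M3 N} (h : Dl N * A = A' * Dl N) : A.trace = A'.trace := by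
  have hDinv : on12 (QQ N) * on23 (QQ N) * on12 (QQ N) * Dl N = 1 := by
    unfold Dl
    have q1 : on12 (QQ N) * on12 (PP N) = 1 := by rw [on12_mul, QQ_PP, on12_one]
    have q2 : on23 (QQ N) * on23 (PP N) = 1 := by rw [on23_mul, QQ_PP, on23_one]
    calc on12 (QQ N) * on23 (QQ N) * on12 (QQ N) * (on12 (PP N) * on23 (PP N) * on12 (PP N))
        = on12 (QQ N) * (on23 (QQ N) * (on12 (QQ N) * on12 (PP N)) * on23 (PP N)) * on12 (PP N) := by
          noncomm_ring
      _ = 1 := by rw [q1, mul_one, q2, mul_one, q1]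
  set D := on12 (QQ N) * on23 (QQ N) * on12 (QQ N) with hD
  have hD2 : Dl N * D = 1 := mul_eq_one_comm.1 hDinv
  calc A.trace = ((D * Dl N) * A).trace := by rw [hDinv, one_mul]
    _ = (D * (A' * Dl N)).trace := by rw [mul_assoc, h]
    _ = ((A' * Dl N) * D).trace := Matrix.trace_mul_comm _ _
    _ = A'.trace := by rw [mul_assoc, hD2, mul_one]

lemma rep3_two (a b : ℕ × Bool) : rep3 N [a, b] = g3 N a * g3 N b := by
  rw [rep3_cons, rep3_cons, rep3_nil, mul_one]

lemma trace_swap (a b : ℕ × Bool) : (rep3 N [a, b]).trace = (rep3 N [b, a]).trace := by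
  rw [rep3_two, rep3_two, Matrix.trace_mul_comm]

lemma trace_letter {l : ℕ × Bool} (hl : l.1 = 0 ∨ l.1 = 1) :
    (rep3 N ([l] ++ dual [l])).trace = (rep3 N [(0, true), (1, false)]).trace := by
  have h1 : (rep3 N [(0, false), (1, true)]).trace = (rep3 N [(1, false), (0, true)]).trace := by
    rw [rep3_two, rep3_two]
    apply trace_conj
    have e1 : g3 N (0, false) = on12 (QQ N) := by simp [g3]
    have e2 : g3 N (1, true) = on23 (PP N) := by simp [g3]
    have e3 : g3 N (1, false) = on23 (QQ N) := by simp [g3]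
    have e4 : g3 N (0, true) = on12 (PP N) := by simp [g3]
    rw [e1, e2, e3, e4, ← mul_assoc, Dl_Q12, mul_assoc, Dl_P23, mul_assoc]
  obtain ⟨k, b⟩ := l
  simp only at hl
  rcases hl with rfl | rfl <;> cases b
  · have : [((0, false) : ℕ × Bool)] ++ dual [(0, false)] = [(0, false), (1, true)] := rfl
    rw [this, h1, trace_swap]
  · rfl
  · have : [((1, false) : ℕ × Bool)] ++ dual [(1, false)] = [(1, false), (0, true)] := rfl
    rw [this, trace_swap]
  · have : [((1, true) : ℕ × Bool)] ++ dual [(1, true)] = [(1, true), (0, false)] := rfl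
    rw [this, trace_swap, h1, trace_swap]

/-- The growth for one letter. -/
lemma letter_growth {l : ℕ × Bool} (hl : l.1 = 0 ∨ l.1 = 1) :
    Tendsto (fun N : ℕ => 2 * Real.pi / N * Real.log ‖(rep3 N ([l] ++ dual [l])).trace‖) atTop
      (𝓝 (8 * GapVol.lob (Real.pi / 6))) := by
  refine (Pool.Agent.H112R4.VL.taskD Pool.Agent.H112R4.VL.taskB
    Pool.Agent.H8R3.VL.taskC).congr' ?_
  filter_upwards [eventually_gt_atTop 0] with N hN
  rw [trace_letter hl, trace_base hN, Complex.norm_real, Real.norm_eq_abs, abs_of_nonneg]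
  exact Finset.sum_nonneg (fun n _ => by positivity)

lemma lob_pos : 0 < GapVol.lob (Real.pi / 6) := by
  have h1 : 0 < 2 / Real.pi * GapVol.lob (Real.pi / 6) := Pool.Agent.H180R3.EV.V4_pos
  exact (mul_pos_iff_of_pos_left (div_pos two_pos Real.pi_pos)).1 h1

/-- `2 π log x / N` for `x = T + N^3` in terms of `2 π log T / N`. -/
lemma add_growth {T : ℕ → ℝ} (hT : ∀ N, 0 ≤ T N) {V : ℝ} (hV : 0 ≤ V)
    (h : ∀ ε : ℝ, 0 < ε → ∀ᶠ N : ℕ in atTop, 2 * Real.pi * (Real.log (T N) / N) ≤ V + ε) :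
    ∀ ε : ℝ, 0 < ε → ∀ᶠ N : ℕ in atTop,
      2 * Real.pi / N * Real.log (T N + (N : ℝ) ^ 3) ≤ V + ε := by
  intro ε hε
  have hlog := log_div_tendsto
  have hinv : Tendsto (fun N : ℕ => 1 / (N : ℝ)) atTop (𝓝 0) := tendsto_one_div_atTop_nhds_zero_nat
  have h2 : Tendsto (fun N : ℕ => 2 * Real.pi * (3 * (Real.log N / (N : ℝ)) +
      Real.log 2 * (1 / (N : ℝ)))) atTop (𝓝 (2 * Real.pi * (3 * 0 + Real.log 2 * 0))) :=
    ((hlog.const_mul 3).add (hinv.const_mul _)).const_mul _
  have h3 : ∀ᶠ N : ℕ in atTop, 2 * Real.pi * (3 * (Real.log N / (N : ℝ)) +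
      Real.log 2 * (1 / (N : ℝ))) < ε / 2 := h2.eventually (gt_mem_nhds (by norm_num; linarith))
  filter_upwards [h (ε / 2) (by linarith), h3, eventually_ge_atTop 1] with N e1 e2 e3
  have hN : (1 : ℝ) ≤ N := by exact_mod_cast e3
  have hN0 : (0 : ℝ) < N := by linarith
  have hpi := Real.pi_pos
  have hP : (1 : ℝ) ≤ (N : ℝ) ^ 3 := one_le_pow₀ hN
  have e4 : T N + (N : ℝ) ^ 3 ≤ 2 * ((N : ℝ) ^ 3 * max 1 (T N)) := by
    have a1 : (1 : ℝ) ≤ max 1 (T N) := le_max_left _ _
    have a2 : T N ≤ max 1 (T N) := le_max_right _ _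
    nlinarith [hT N]
  have hm : 0 < max 1 (T N) := lt_of_lt_of_le one_pos (le_max_left _ _)
  have e5 : Real.log (T N + (N : ℝ) ^ 3) ≤
      Real.log 2 + (3 * Real.log N + Real.log (max 1 (T N))) := by
    refine (Real.log_le_log (by have := hT N; positivity) e4).trans (le_of_eq ?_)
    rw [Real.log_mul (by norm_num) (by positivity), Real.log_mul (by positivity) hm.ne',
      Real.log_pow]
    push_cast
    ring
  have e6 : 2 * Real.pi / N * Real.log (max 1 (T N)) ≤ V + ε / 2 := by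
    rcases le_total (T N) 1 with h5 | h5
    · rw [max_eq_left h5, Real.log_one, mul_zero]
      linarith
    · rw [max_eq_right h5]
      refine le_trans (le_of_eq ?_) e1
      ring
  have e7 : 2 * Real.pi / N * Real.log (T N + (N : ℝ) ^ 3) ≤
      2 * Real.pi / N * (Real.log 2 + (3 * Real.log N + Real.log (max 1 (T N)))) :=
    mul_le_mul_of_nonneg_left e5 (by positivity)
  have e8 : 2 * Real.pi / N * (Real.log 2 + (3 * Real.log N + Real.log (max 1 (T N)))) =
      2 * Real.pi * (3 * (Real.log N / (N : ℝ)) + Real.log 2 * (1 / (N : ℝ))) +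
        2 * Real.pi / N * Real.log (max 1 (T N)) := by ring
  rw [e8] at e7
  linarith

lemma log_list_prod {α : Type} (f : α → ℝ) (ws : List α) (h : ∀ u ∈ ws, 0 < f u) :
    0 < (ws.map f).prod ∧ Real.log (ws.map f).prod = (ws.map fun u => Real.log (f u)).sum := by
  induction ws with
  | nil => simp
  | cons u ws ih =>
    obtain ⟨h1, h2⟩ := ih fun v hv => h v (List.mem_cons_of_mem _ hv)
    have h3 := h u List.mem_cons_self
    rw [List.map_cons, List.prod_cons, List.map_cons, List.sum_cons]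
    exact ⟨mul_pos h3 h1, by rw [Real.log_mul h3.ne' h1.ne', h2]⟩

/-- The limit form of the estimate. -/
lemma limit_form {α : Type} (ws : List α) {T : α → ℕ → ℝ} (hT : ∀ u N, 0 ≤ T u N) {V : α → ℝ}
    (hV : ∀ u ∈ ws, 0 ≤ V u) (h : ∀ u ∈ ws, ∀ ε : ℝ, 0 < ε →
      ∀ᶠ N : ℕ in atTop, 2 * Real.pi * (Real.log (T u N) / N) ≤ V u + ε)
    {S : ℕ → ℝ} (hS : ∀ N : ℕ, 1 ≤ N → 0 ≤ S N ∧
      S N ≤ (N : ℝ) ^ 3 * Real.sqrt ((ws.map fun u => T u N + (N : ℝ) ^ 3).prod)) :
    ∀ ε : ℝ, 0 < ε → ∀ᶠ N : ℕ in atTop,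
      2 * Real.pi * (Real.log (S N) / N) ≤ (ws.map V).sum / 2 + ε := by
  have hsum : ∀ ws : List α, (∀ u ∈ ws, 0 ≤ V u) → (∀ u ∈ ws, ∀ ε : ℝ, 0 < ε →
      ∀ᶠ N : ℕ in atTop, 2 * Real.pi * (Real.log (T u N) / N) ≤ V u + ε) →
      ∀ ε : ℝ, 0 < ε → ∀ᶠ N : ℕ in atTop, 2 * Real.pi / N *
        (ws.map fun u => Real.log (T u N + (N : ℝ) ^ 3)).sum ≤ (ws.map V).sum + ε := by
    intro ws
    induction ws with
    | nil =>
      intro _ _ ε hε
      refine Eventually.of_forall fun N => ?_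
      simp only [List.map_nil, List.sum_nil, mul_zero, zero_add]
      exact hε.le
    | cons u ws ih =>
      intro hV h ε hε
      filter_upwards [ih (fun v hv => hV v (List.mem_cons_of_mem _ hv))
        (fun v hv => h v (List.mem_cons_of_mem _ hv)) (ε / 2) (by linarith),
        add_growth (hT u) (hV u List.mem_cons_self) (h u List.mem_cons_self) (ε / 2)
          (by linarith)] with N e1 e2
      rw [List.map_cons, List.sum_cons, List.map_cons, List.sum_cons, mul_add]
      linarith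
  intro ε hε
  have hlog := log_div_tendsto
  have h2 : Tendsto (fun N : ℕ => 2 * Real.pi * (3 * (Real.log N / (N : ℝ)))) atTop
      (𝓝 (2 * Real.pi * (3 * 0))) := (hlog.const_mul 3).const_mul _
  have h3 : ∀ᶠ N : ℕ in atTop, 2 * Real.pi * (3 * (Real.log N / (N : ℝ))) < ε / 2 :=
    h2.eventually (gt_mem_nhds (by norm_num; linarith))
  filter_upwards [hsum ws hV h ε hε, h3, eventually_ge_atTop 1] with N e1 e2 e3
  have hN : (1 : ℝ) ≤ N := by exact_mod_cast e3
  have hN0 : (0 : ℝ) < N := by linarith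
  have hpi := Real.pi_pos
  obtain ⟨s0, s1⟩ := hS N e3
  have hVs : 0 ≤ (ws.map V).sum := List.sum_nonneg fun a ha => by
    obtain ⟨u, hu, rfl⟩ := List.mem_map.1 ha
    exact hV u hu
  rcases s0.lt_or_eq with hpos | hzero
  · obtain ⟨p1, p2⟩ := log_list_prod (fun u => T u N + (N : ℝ) ^ 3) ws
      (fun u _ => by have := hT u N; positivity)
    have e4 := Real.log_le_log hpos s1
    rw [Real.log_mul (by positivity) (Real.sqrt_pos.2 p1).ne', Real.log_pow,
      Real.log_sqrt p1.le, p2] at e4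
    push_cast at e4
    have e5 : 2 * Real.pi * (Real.log (S N) / N) = 2 * Real.pi / N * Real.log (S N) := by ring
    rw [e5]
    refine (mul_le_mul_of_nonneg_left e4 (by positivity)).trans ?_
    have e6 : 2 * Real.pi / N * (3 * Real.log N +
        (ws.map fun u => Real.log (T u N + (N : ℝ) ^ 3)).sum / 2) =
        2 * Real.pi * (3 * (Real.log N / (N : ℝ))) + (2 * Real.pi / N *
          (ws.map fun u => Real.log (T u N + (N : ℝ) ^ 3)).sum) / 2 := by ring
    rw [e6]
    linarith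
  · rw [← hzero, Real.log_zero, zero_div, mul_zero]
    linarith

end Pool.Agent.H157.Chess
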